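import Pool.Agent.H379R3.CStarLoc

/-!
# Semisimplicity of group algebras in characteristic zero and projections in group C*-algebras
-/

set_option autoImplicit false

namespace Pool.Agent.Results.MP_b2d650_al.CStarProjections

open Pool.Agent.H379R3.CS

universe u v

/-- If `G` is locally fully residually a group `Q` whose complex group algebra embeds (as a star
algebra) in a C*-algebra without an infinite sequence of pairwise orthogonal nonzero projections,
then `F[G]` has zero Jacobson radical for every field `F` of characteristic zero. -/
theorem result (G : Type u) [Group G]
    (hG : ∀ H : Subgroup G, H.FG → ∀ X : Finset H, ∃ (N : Subgroup H) (_ : N.Normal),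
      Set.InjOn (fun x : H => (QuotientGroup.mk x : H ⧸ N)) X ∧ FewProjections (H ⧸ N))
    (F : Type v) [Field F] [CharZero F] :
    Ideal.jacobson (⊥ : Ideal (MonoidAlgebra F G)) = ⊥ :=
  jacobson_local G hG F

end Pool.Agent.Results.MP_b2d650_al.CStarProjections
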