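import Mathlib
import Pool.Agent.H225R3.JRad4

/-!
# Semisimplicity of `F[G]` in characteristic zero from zero divisors modulo one prime
-/

set_option autoImplicit false

universe u v

namespace Pool.Agent.Results.MP_b2d650_al.ZeroDivisorIdeals

/-- Let `G` be any group and `p` any prime number.

(1) If every nonzero two-sided ideal of `𝔽_p[G]` contains an element `b` with
`x * b = 0 → x = 0`, then the Jacobson radical of `F[G]` is zero for every field `F` of
characteristic zero which is algebraic over `ℚ`. (For the other fields `F` of characteristic zero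
this is Amitsur's theorem, for all groups.)

(2) If `𝔽_p[G]` has no zero divisors, then the Jacobson radical of `F[G]` is zero for every field
`F` of characteristic zero. -/
theorem result (G : Type u) [Group G] (p : ℕ) [Fact p.Prime] :
    ((∀ I : Ideal (MonoidAlgebra (ZMod p) G), I.IsTwoSided → I ≠ ⊥ →
        ∃ b ∈ I, ∀ x, x * b = 0 → x = 0) →
      ∀ (F : Type v) [Field F] [CharZero F] [Algebra.IsAlgebraic ℚ F],
        Ideal.jacobson (⊥ : Ideal (MonoidAlgebra F G)) = ⊥) ∧
    ((∀ x y : MonoidAlgebra (ZMod p) G, x * y = 0 → x = 0 ∨ y = 0) →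
      ∀ (F : Type v) [Field F] [CharZero F],
        Ideal.jacobson (⊥ : Ideal (MonoidAlgebra F G)) = ⊥) := by
  refine ⟨fun H F _ _ _ => H225R3.JRad.alg_case p H F, fun H F _ _ => ?_⟩
  haveI : NoZeroDivisors (MonoidAlgebra (ZMod p) G) := ⟨fun {x y} h => H x y h⟩
  exact H225R3.JRad.domain_case p F

end Pool.Agent.Results.MP_b2d650_al.ZeroDivisorIdeals
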